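import Mathlib
import Pool.Agent.Helper669.KFinal

set_option autoImplicit false

/-!
# The strong polarized relation at a cardinal which is not weakly compact
-/

namespace Pool.Agent.Results.MP_c625b5_lc.Indestructible

open Cardinal Pool.Agent.Helper669.Forcing Pool.Agent.Helper669.K

/-- If `κ` is measurable in every extension by a `κ`-directed closed forcing notion, then there
is a forcing notion which forces that `κ` is an uncountable regular cardinal which is not weakly
compact, `κ⁺` is the successor cardinal of `κ`, and the strong polarized relation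
`(κ⁺, κ) → (κ⁺, κ)` holds. -/
theorem result (κ : Cardinal.{0}) (h : IndestructiblyMeasurable κ) :
    ∃ (P : Type) (_ : Preorder P), Nonempty P ∧ ∀ p : P,
      p ∈ StaysRegular P κ ∧ p ∈ StaysRegular P (Order.succ κ) ∧
      p ∈ fnot (PairsPartition P κ.ord.ToType) ∧
      p ∈ Polarized P (Order.succ κ).ord.ToType κ.ord.ToType := by
  obtain ⟨hκ, h2⟩ := regular_of_measurable h
  have hκ0 := hκ.aleph0_le
  let L : Type := (Order.succ (Order.succ κ)).ord.ToType
  have hs1 : (Order.succ κ).IsRegular := isRegular_succ hκ0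
  have hs2 : (Order.succ (Order.succ κ)).IsRegular := isRegular_succ hs1.aleph0_le
  have hLκ : κ ≤ #L := by
    rw [mk_ord_toType]
    exact (Order.le_succ κ).trans (Order.le_succ _)
  have hKκ : #κ.ord.ToType ≤ κ := (mk_ord_toType κ).le
  have hZ : #(κ.ord.ToType × RP κ.ord.ToType) ≤ κ := by
    rw [mk_prod, lift_id, lift_id]
    exact (mul_le_mul' hKκ (RP.mk_le hκ h2)).trans (mul_eq_self hκ0).le
  obtain ⟨I, e, he⟩ := exists_enum hκ0 L (κ.ord.ToType × RP κ.ord.ToType) (SP κ.ord.ToType)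
    κ.ord.ToType hLκ hZ (SP.mk_le hκ h2) hKκ
  obtain ⟨W, hW⟩ := exists_W (L := L) (RP.st (K := κ.ord.ToType)) e
  have hL : ∀ T : Set L, #T ≤ Order.succ κ → ∃ γ, ∀ α ∈ T, α < γ := by
    intro T hT
    by_contra hcon
    push Not at hcon
    have hunb : IsCofinal T := fun ζ => by
      obtain ⟨β, hβ, h⟩ := hcon ζ
      exact ⟨β, hβ, h⟩
    have hcof := Order.cof_le hunb
    rw [Ordinal.cof_toType, hs2.cof_ord] at hcof
    exact absurd (hcof.trans hT) (not_le.2 (Order.lt_succ _))
  have hR := RP.dirClosed hκ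
  have hU : ∀ (α : L) (q : PR (rel W α) × RP κ.ord.ToType),
      q ∈ IsMeasure κ (theU κ κ.ord.ToType (PR (rel W α) × RP κ.ord.ToType)) := by
    intro α q
    exact theU_spec (exists_name (h.2 _ (dirClosed_prod (dirClosed_PR _ e hW hκ α) hR))) q
  have hst : ∀ a b : RP κ.ord.ToType, a ≤ b → a.st ≤ b.st := fun a b h => h.1
  have hlift : ∀ (r : RP κ.ord.ToType) (s : SP κ.ord.ToType), s ≤ r.st →
      ∃ r' ≤ r, r'.st = s := fun r s hs => RP.exists_lift r s hs
  have hsurj : ∀ s : SP κ.ord.ToType, ∃ r : RP κ.ord.ToType, r.st = s := RP.exists_st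
  have hne : Nonempty κ.ord.ToType := by
    rw [← mk_ne_zero_iff, mk_ord_toType]
    exact hκ.pos.ne'
  refine ⟨PW W × SP κ.ord.ToType, inferInstance, ?_, fun p => ⟨?_, ?_, ?_, ?_⟩⟩
  · obtain ⟨a⟩ := hne
    exact ⟨(PW.mk W ⟨∅, ∅, by simpa using hκ.pos, by simpa using hκ.pos⟩,
      ⟨a, fun _ _ => false, fun _ _ _ _ => by simp, fun _ _ _ => rfl⟩)⟩
  · exact staysRegular_PW _ e hW hκ hR hst hlift hsurj p
  · exact staysRegular_succ hκ0
      (cc_PW _ e hW hκ h2 hKκ (RP.mk_le hκ h2) (SP.mk_le hκ h2)) p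
  · exact not_pairsPartition hκ h.1 (dirClosed_PW _ e hW hκ) p
  · exact polarized_PW _ e hW hκ h2 (RP.mk_le hκ h2) (SP.mk_le hκ h2) hR hU hst hlift hsurj he hL p

end Pool.Agent.Results.MP_c625b5_lc.Indestructible
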